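import Mathlib

namespace Pool.Agent.Results.MP_52d0c2_ag.Counter

open MvPolynomial

/-- Joint states `u` of the random variables. -/
abbrev St {n : ℕ} (κ : Fin n → ℕ) : Type := ∀ i, Fin (κ i)

/-- Parent configurations of vertex `j` (edges `i → j` are given by `E i j`). -/
abbrev Par {n : ℕ} (E : Fin n → Fin n → Prop) (κ : Fin n → ℕ) (j : Fin n) : Type :=
  ∀ i : {i // E i j}, Fin (κ i.1)

/-- Indices of the parameters: `some ⟨j, k, a⟩` is `θ_{j,k,a}` and `none` is `z`. -/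
abbrev Th {n : ℕ} (E : Fin n → Fin n → Prop) (κ : Fin n → ℕ) : Type :=
  Option (Σ j : Fin n, Fin (κ j) × Par E κ j)

/-- The ideal `J` generated by the `∑ₖ θ_{j,k,a} - z`. -/
noncomputable def J {n : ℕ} (E : Fin n → Fin n → Prop) (κ : Fin n → ℕ) :
    Ideal (MvPolynomial (Th E κ) ℝ) :=
  Ideal.span {f | ∃ (j : Fin n) (a : Par E κ j), f = ∑ k, X (some ⟨j, k, a⟩) - X none}

/-- The map `x_u ↦ ∏ⱼ θ_{j, u_j, u_{Pa(j)}}` into the quotient by `J`. -/
noncomputable def phi {n : ℕ} (E : Fin n → Fin n → Prop) (κ : Fin n → ℕ) :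
    MvPolynomial (St κ) ℝ →ₐ[ℝ] MvPolynomial (Th E κ) ℝ ⧸ J E κ :=
  aeval fun u => Ideal.Quotient.mk (J E κ) (∏ j, X (some ⟨j, u j, fun i => u i.1⟩))

/-- A prime ideal generated by binomials `x^a - x^b`. -/
def ToricIdeal {ι : Type} (I : Ideal (MvPolynomial ι ℝ)) : Prop :=
  I.IsPrime ∧ ∃ S : Set (MvPolynomial ι ℝ),
    (∀ f ∈ S, ∃ a b : ι →₀ ℕ, f = monomial a 1 - monomial b 1) ∧ I = Ideal.span S

/-- `P_G = ker φ` becomes toric after an invertible linear change of variables. -/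
def IsToric {n : ℕ} (E : Fin n → Fin n → Prop) (κ : Fin n → ℕ) : Prop :=
  ∃ σ : MvPolynomial (St κ) ℝ ≃ₐ[ℝ] MvPolynomial (St κ) ℝ,
    (∀ u, (σ (X u)).IsHomogeneous 1) ∧ ToricIdeal ((RingHom.ker (phi E κ)).map σ)

/-- The subgraph induced on the non-sinks is perfect. -/
def NonSinkPerfect {n : ℕ} (E : Fin n → Fin n → Prop) : Prop :=
  ∀ v a b, (∃ w, E v w) → (∃ w, E a w) → (∃ w, E b w) → E a v → E b v → a ≠ b → E a b ∨ E b a

abbrev E4 : Fin 4 → Fin 4 → Prop := fun i j => i < j ∧ 2 ≤ j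
abbrev k4 : Fin 4 → ℕ := fun _ => 2
abbrev R4 : Type := MvPolynomial (Fin 4 → Fin 2) ℝ

noncomputable def m2 (a b : Fin 2) : R4 := ∑ c, ∑ d, X ![a, b, c, d]
noncomputable def dt : R4 := m2 0 0 * m2 1 1 - m2 0 1 * m2 1 0
noncomputable def q : R4 := X ![0, 0, 0, 0] * X ![1, 1, 0, 0] - X ![0, 1, 0, 0] * X ![1, 0, 0, 0]

noncomputable def sh (e : ℝ) : R4 →ₐ[ℝ] R4 := aeval fun u =>
  if u 2 = 0 ∧ u 3 = 0 then
    X u + C e * (X ![u 0, u 1, 0, 1] + X ![u 0, u 1, 1, 0] + X ![u 0, u 1, 1, 1]) else X u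

lemma sh_comp (e : ℝ) : (sh e).comp (sh (-e)) = AlgHom.id ℝ R4 := by
  apply algHom_ext
  intro u
  by_cases h : u 2 = 0 ∧ u 3 = 0
  · simp [sh, h]
  · simp [sh, h]

noncomputable def sg : R4 ≃ₐ[ℝ] R4 :=
  AlgEquiv.ofAlgHom (sh (-1)) (sh 1) (by simpa using sh_comp (-1)) (sh_comp 1)

lemma sg_m2 (a b : Fin 2) : sg (m2 a b) = X ![a, b, 0, 0] := by
  show sh (-1) (m2 a b) = _
  simp [m2, sh, Fin.sum_univ_two]
  ring

lemma sg_dt : sg dt = q := by simp only [dt, q, map_sub, map_mul, sg_m2]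

lemma q_irred : Irreducible q := by
  have := irreducible_mul_X_add (R := ℝ) (X (![0, 0, 0, 0] : Fin 4 → Fin 2))
    (-(X ![0, 1, 0, 0] * X ![1, 0, 0, 0])) ![1, 1, 0, 0] (X_ne_zero _)
    (by rw [vars_X, Finset.mem_singleton]; decide)
    (by
      rw [vars_neg]
      intro h
      have := vars_mul _ _ h
      rw [vars_X, vars_X, Finset.mem_union, Finset.mem_singleton, Finset.mem_singleton] at this
      revert this; decide)
    (by
      rw [X_prime.irreducible.isRelPrime_iff_not_dvd]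
      intro h
      have := map_dvd (eval (fun u => if u = ![0, 0, 0, 0] then (0 : ℝ) else 1)) h
      rw [map_neg, map_mul, eval_X, eval_X, eval_X, if_pos rfl, if_neg (by decide),
        if_neg (by decide)] at this
      simp at this)
  rwa [← sub_eq_add_neg] at this

def rs (j : Fin 4) (a b c : Fin 2) : Par E4 k4 j := fun i => ![a, b, c, 0] i.1

lemma dt_mem : dt ∈ RingHom.ker (phi E4 k4) := by
  have rel : ∀ (j : Fin 4) (a : Par E4 k4 j),
      ∑ k : Fin 2, Ideal.Quotient.mk (J E4 k4) (X (some ⟨j, k, a⟩)) =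
        Ideal.Quotient.mk (J E4 k4) (X none) := by
    intro j a
    rw [← map_sum, Ideal.Quotient.eq]
    exact Ideal.subset_span ⟨j, a, rfl⟩
  have hx : ∀ a b c d : Fin 2, phi E4 k4 (X ![a, b, c, d]) =
      Ideal.Quotient.mk (J E4 k4) (X (some ⟨0, a, rs 0 0 0 0⟩)) *
      Ideal.Quotient.mk (J E4 k4) (X (some ⟨1, b, rs 1 0 0 0⟩)) *
      Ideal.Quotient.mk (J E4 k4) (X (some ⟨2, c, rs 2 a b 0⟩)) *
      Ideal.Quotient.mk (J E4 k4) (X (some ⟨3, d, rs 3 a b c⟩)) := by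
    intro a b c d
    have e0 : (fun i : {i // E4 i 0} => ![a, b, c, d] i.1) = rs 0 0 0 0 := by
      funext ⟨i, hi⟩; exact absurd hi.2 (by decide)
    have e1 : (fun i : {i // E4 i 1} => ![a, b, c, d] i.1) = rs 1 0 0 0 := by
      funext ⟨i, hi⟩; exact absurd hi.2 (by decide)
    have e2 : (fun i : {i // E4 i 2} => ![a, b, c, d] i.1) = rs 2 a b 0 := by
      funext ⟨i, hi⟩
      fin_cases i
      · rfl
      · rfl
      · exact absurd hi.1 (by decide)
      · exact absurd hi.1 (by decide)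
    have e3 : (fun i : {i // E4 i 3} => ![a, b, c, d] i.1) = rs 3 a b c := by
      funext ⟨i, hi⟩
      fin_cases i
      · rfl
      · rfl
      · rfl
      · exact absurd hi.1 (by decide)
    rw [phi, aeval_X, Fin.prod_univ_four, map_mul, map_mul, map_mul, ← e0, ← e1, ← e2, ← e3]
    rfl
  have hm : ∀ a b : Fin 2, phi E4 k4 (m2 a b) =
      Ideal.Quotient.mk (J E4 k4) (X (some ⟨0, a, rs 0 0 0 0⟩)) *
      Ideal.Quotient.mk (J E4 k4) (X (some ⟨1, b, rs 1 0 0 0⟩)) *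
      Ideal.Quotient.mk (J E4 k4) (X none) * Ideal.Quotient.mk (J E4 k4) (X none) := by
    intro a b
    simp only [m2, map_sum, hx, ← Finset.mul_sum, rel, ← Finset.sum_mul]
  rw [RingHom.mem_ker, dt, map_sub, map_mul, map_mul, hm, hm, hm, hm]
  ring

lemma ker_le {K : Type} [Field K] [Algebra ℝ K] [IsAlgClosed K] (ι : R4 →ₐ[ℝ] K)
    (h0 : ι dt = 0) (h1 : ∀ f, ι f = 0 → eval (fun _ => (1 : ℝ)) f = 0) (f : R4)
    (hf : phi E4 k4 f = 0) : ι f = 0 := by
  classical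
  obtain ⟨x, hx⟩ : ∃ x : Fin 2 → Fin 2 → Fin 2 → Fin 2 → K,
      ∀ a b c d, x a b c d = ι (X ![a, b, c, d]) := ⟨_, fun _ _ _ _ => rfl⟩
  obtain ⟨n3, hn3⟩ : ∃ y : Fin 2 → Fin 2 → Fin 2 → K, ∀ a b c, y a b c = x a b c 0 + x a b c 1 :=
    ⟨_, fun _ _ _ => rfl⟩
  obtain ⟨n2, hn2⟩ : ∃ y : Fin 2 → Fin 2 → K, ∀ a b, y a b = n3 a b 0 + n3 a b 1 :=
    ⟨_, fun _ _ => rfl⟩
  have e2 : ∀ a b, n2 a b = ι (m2 a b) := by
    intro a b
    simp only [hn2, hn3, hx, m2, Fin.sum_univ_two, map_add]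
  obtain ⟨s, hs⟩ : ∃ s, s = n2 0 0 + n2 0 1 + (n2 1 0 + n2 1 1) := ⟨_, rfl⟩
  have p3 : ∀ a b c, n3 a b c ≠ 0 := by
    intro a b c h
    rw [hn3, hx, hx, ← map_add] at h
    have := h1 _ h
    norm_num at this
  have p2 : ∀ a b, n2 a b ≠ 0 := by
    intro a b h
    have := h1 _ ((e2 a b).symm.trans h)
    norm_num [m2] at this
  have ps : s ≠ 0 := by
    intro h
    rw [hs, e2, e2, e2, e2, ← map_add, ← map_add, ← map_add] at h
    have := h1 _ h
    norm_num [m2] at this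
  have hd : n2 0 0 * n2 1 1 - n2 0 1 * n2 1 0 = 0 := by
    rw [e2, e2, e2, e2, ← h0, dt, map_sub, map_mul, map_mul]
  have hab : ∀ a b, (n2 a 0 + n2 a 1) * (n2 0 b + n2 1 b) = s * n2 a b := by
    intro a b
    rw [hs]
    fin_cases a <;> fin_cases b <;> simp only [Fin.zero_eta, Fin.mk_one]
    · linear_combination -hd
    · linear_combination hd
    · linear_combination hd
    · linear_combination -hd
  obtain ⟨t, ht⟩ := IsAlgClosed.exists_pow_nat_eq s (n := 4) (by norm_num)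
  let w : Fin 4 → Fin 2 → (Fin 4 → Fin 2) → K := fun j k v =>
    ![(n2 k 0 + n2 k 1) / s, (n2 0 k + n2 1 k) / s, n3 (v 0) (v 1) k / n2 (v 0) (v 1),
      x (v 0) (v 1) (v 2) k / n3 (v 0) (v 1) (v 2)] j
  have hw : ∀ j v, w j 0 v + w j 1 v = 1 := by
    intro j v
    fin_cases j
    · show (n2 0 0 + n2 0 1) / s + (n2 1 0 + n2 1 1) / s = 1
      rw [← add_div, ← hs, div_self ps]
    · show (n2 0 0 + n2 1 0) / s + (n2 0 1 + n2 1 1) / s = 1
      rw [← add_div, div_eq_one_iff_eq ps, hs]; ring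
    · show n3 (v 0) (v 1) 0 / n2 (v 0) (v 1) + n3 (v 0) (v 1) 1 / n2 (v 0) (v 1) = 1
      rw [← add_div, ← hn2, div_self (p2 _ _)]
    · show x (v 0) (v 1) (v 2) 0 / n3 (v 0) (v 1) (v 2) +
        x (v 0) (v 1) (v 2) 1 / n3 (v 0) (v 1) (v 2) = 1
      rw [← add_div, ← hn3, div_self (p3 _ _ _)]
  let χ : MvPolynomial (Th E4 k4) ℝ →ₐ[ℝ] K := aeval fun o =>
    Option.elim o t (fun p => t * w p.1 p.2.1 (fun i => if h : E4 i p.1 then p.2.2 ⟨i, h⟩ else 0))
  have hJ : ∀ g ∈ J E4 k4, χ g = 0 := by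
    intro g hg
    refine (Ideal.span_le (I := RingHom.ker χ)).2 ?_ hg
    rintro _ ⟨j, a, rfl⟩
    simp only [SetLike.mem_coe, RingHom.mem_ker, map_sub, map_sum, χ, aeval_X, Option.elim]
    rw [Fin.sum_univ_two]
    linear_combination t * hw j (fun i => if h : E4 i j then a ⟨i, h⟩ else 0)
  have key : (Ideal.Quotient.liftₐ (J E4 k4) χ hJ).comp (phi E4 k4) = ι := by
    apply algHom_ext
    intro u
    have eu : u = ![u 0, u 1, u 2, u 3] := by
      funext i; fin_cases i <;> rfl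
    rw [AlgHom.comp_apply, phi, aeval_X]
    show χ _ = _
    rw [Fin.prod_univ_four, map_mul, map_mul, map_mul]
    simp only [χ, aeval_X, Option.elim]
    conv_rhs => rw [eu, ← hx]
    show t * ((n2 (u 0) 0 + n2 (u 0) 1) / s) * (t * ((n2 0 (u 1) + n2 1 (u 1)) / s)) *
      (t * (n3 (u 0) (u 1) (u 2) / n2 (u 0) (u 1))) *
      (t * (x (u 0) (u 1) (u 2) (u 3) / n3 (u 0) (u 1) (u 2))) = _
    have a1 := p2 (u 0) (u 1)
    have a2 := p3 (u 0) (u 1) (u 2)
    have a3 := hab (u 0) (u 1)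
    field_simp
    rw [ht]
    linear_combination s * x (u 0) (u 1) (u 2) (u 3) * a3
  rw [← key, AlgHom.comp_apply, hf, map_zero]

theorem result : ∃ (n : ℕ) (E : Fin n → Fin n → Prop) (κ : Fin n → ℕ),
    (∀ i j, E i j → i < j) ∧ (∀ i, 2 ≤ κ i) ∧ IsToric E κ ∧ ¬ NonSinkPerfect E := by
  refine ⟨4, E4, k4, fun _ _ h => h.1, fun _ => le_rfl, ?_, ?_⟩
  · haveI hp : (Ideal.span {q}).IsPrime :=
      (Ideal.span_singleton_prime q_irred.ne_zero).2 q_irred.prime
    have hP : (RingHom.ker (phi E4 k4)).map sg = Ideal.span {q} := by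
      apply le_antisymm
      · rw [Ideal.map_le_iff_le_comap]
        intro f hf
        let A := R4 ⧸ Ideal.span {q}
        let K := AlgebraicClosure (FractionRing A)
        let ι : R4 →ₐ[ℝ] K := (IsScalarTower.toAlgHom ℝ A K).comp
          ((Ideal.Quotient.mkₐ ℝ (Ideal.span {q})).comp sg.toAlgHom)
        have hinj : Function.Injective (algebraMap A K) := by
          rw [IsScalarTower.algebraMap_eq A (FractionRing A) K]
          exact (algebraMap (FractionRing A) K).injective.comp (IsFractionRing.injective A _)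
        have hι : ∀ g, ι g = 0 ↔ sg g ∈ Ideal.span {q} := by
          intro g
          show algebraMap A K (Ideal.Quotient.mk _ (sg g)) = 0 ↔ _
          rw [map_eq_zero_iff _ hinj, Ideal.Quotient.eq_zero_iff_mem]
        refine (hι f).1 (ker_le ι ?_ ?_ f hf)
        · rw [hι, sg_dt]; exact Ideal.mem_span_singleton_self _
        · intro g hg
          obtain ⟨c, hc⟩ := Ideal.mem_span_singleton.1 ((hι g).1 hg)
          have : g = dt * sg.symm c := by
            apply sg.injective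
            rw [map_mul, sg_dt, AlgEquiv.apply_symm_apply, hc]
          rw [this, map_mul]
          simp [dt, m2]
      · rw [Ideal.span_le, Set.singleton_subset_iff, ← sg_dt]
        exact Ideal.mem_map_of_mem _ dt_mem
    refine ⟨sg, fun u => ?_, ?_⟩
    · show (sh (-1) (X u)).IsHomogeneous 1
      rw [sh, aeval_X]
      split_ifs
      · exact (isHomogeneous_X _ _).add ((((isHomogeneous_X _ _).add (isHomogeneous_X _ _)).add
          (isHomogeneous_X _ _)).C_mul _)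
      · exact isHomogeneous_X _ _
    · refine hP ▸ ⟨hp, {q}, ?_, rfl⟩
      rintro _ rfl
      refine ⟨Finsupp.single (![0, 0, 0, 0] : Fin 4 → Fin 2) 1 +
          Finsupp.single (![1, 1, 0, 0] : Fin 4 → Fin 2) 1,
        Finsupp.single (![0, 1, 0, 0] : Fin 4 → Fin 2) 1 +
          Finsupp.single (![1, 0, 0, 0] : Fin 4 → Fin 2) 1, ?_⟩
      simp only [q, X, monomial_mul, mul_one]
  · intro h
    have := h 2 0 1 ⟨3, by decide⟩ ⟨3, by decide⟩ ⟨3, by decide⟩ (by decide) (by decide)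
      (by decide)
    revert this
    decide

end Pool.Agent.Results.MP_52d0c2_ag.Counter
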